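import Pool.Agent.SZT.StmtsB

/-!
# Squad SZT, row KAP
-/

set_option autoImplicit false

open Polynomial H58Q

namespace Pool.Agent.SZT.H32

/-! ### classes of ideals -/

section cl

variable {R : Type} [CommRing R]

theorem SameCl.refl' [Nontrivial R] (I : Ideal R) : SameCl I I :=
  ⟨1, 1, one_ne_zero, one_ne_zero, rfl⟩

theorem SameCl.symm' {I J : Ideal R} (h : SameCl I J) : SameCl J I := by
  obtain ⟨a, b, ha, hb, hab⟩ := h
  exact ⟨b, a, hb, ha, hab.symm⟩

variable [IsDomain R]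

theorem SameCl.trans' {I J L : Ideal R} (h : SameCl I J) (h' : SameCl J L) : SameCl I L := by
  obtain ⟨a, b, ha, hb, hab⟩ := h
  obtain ⟨c, d, hc, hd, hcd⟩ := h'
  refine ⟨a * c, b * d, mul_ne_zero ha hc, mul_ne_zero hb hd, ?_⟩
  calc Ideal.span {a * c} * I = Ideal.span {c} * (Ideal.span {a} * I) := by
        rw [← Ideal.span_singleton_mul_span_singleton, mul_comm (Ideal.span {a}), mul_assoc]
    _ = Ideal.span {b} * (Ideal.span {c} * J) := by
        rw [hab, ← mul_assoc, ← mul_assoc, mul_comm (Ideal.span {c})]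
    _ = Ideal.span {b * d} * L := by
        rw [hcd, ← mul_assoc, Ideal.span_singleton_mul_span_singleton]

theorem SameCl.mul' {I J I' J' : Ideal R} (h : SameCl I J) (h' : SameCl I' J') :
    SameCl (I * I') (J * J') := by
  obtain ⟨a, b, ha, hb, hab⟩ := h
  obtain ⟨c, d, hc, hd, hcd⟩ := h'
  refine ⟨a * c, b * d, mul_ne_zero ha hc, mul_ne_zero hb hd, ?_⟩
  rw [← Ideal.span_singleton_mul_span_singleton, ← Ideal.span_singleton_mul_span_singleton,
    mul_mul_mul_comm, hab, hcd, mul_mul_mul_comm]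

theorem principal_of_sameCl {I : Ideal R} {u : R} (h : SameCl I (Ideal.span {u})) :
    ∃ ψ : R, I = Ideal.span {ψ} := by
  obtain ⟨a, b, ha, _, hab⟩ := h
  rw [Ideal.span_singleton_mul_span_singleton] at hab
  have h1 : b * u ∈ Ideal.span {a} * I := by
    rw [hab]
    exact Ideal.mem_span_singleton_self _
  rw [Ideal.mem_span_singleton_mul] at h1
  obtain ⟨ψ, _, hψ2⟩ := h1
  refine ⟨ψ, ?_⟩
  rw [← hψ2, ← Ideal.span_singleton_mul_span_singleton,
    Ideal.span_singleton_mul_right_inj ha] at hab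
  exact hab

end cl

/-! ### Mumford pairs -/

theorem mum_one {K : Type} [Field K] (f : K[X]) : Mum f 1 0 where
  monic := monic_one
  deg := by
    rw [degree_zero, degree_one]
    exact WithBot.bot_lt_coe 0
  dvd := one_dvd _

theorem mum_neg {K : Type} [Field K] {f A B : K[X]} (h : Mum f A B) : Mum f A (-B) where
  monic := h.monic
  deg := by
    rw [degree_neg]
    exact h.deg
  dvd := by
    rw [neg_sq]
    exact h.dvd

theorem MI_one {K : Type} [Field K] (f : K[X]) : MI f 1 0 = ⊤ := by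
  rw [Ideal.eq_top_iff_one]
  refine Ideal.subset_span (Or.inl ?_)
  rfl

theorem kap (cht : B.ChtStmt) (inv : B.InvStmt) (nrm : B.NrmStmt) (rep : B.RepStmt)
    (add : B.AddStmt) : B.KapStmt := by
  classical
  intro K L _ _ _ _ φ f θ s h2 hf h5 hnode hsq hsplit I hI
  have : IsDomain (Q K f) := isDomain (g := 2) (by rw [h5])
  have hodd : Odd f.natDegree := by rw [h5]; decide
  have hmo : f.Monic := by
    refine monic_of_injective φ.injective ?_
    rw [hnode.fac]
    exact monic_prod_of_monic _ _ fun i _ => monic_X_sub_C _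
  -- the sum of positions of a pair
  set S : K[X] → K[X] → ℝ := fun A B => SZT.B.ss θ s (A.map φ) (B.map φ) with hS
  obtain ⟨hc1, hc2, _⟩ := cht L (f.map φ) θ s hnode hsq
  -- the roots
  have hroot : ∀ A B : K[X], Mum f A B → ∀ a ∈ (A.map φ).roots,
      ((B.map φ).eval a) ^ 2 = (f.map φ).eval a := by
    intro A B hM a ha
    obtain ⟨G, hG⟩ := hM.dvd
    have h1 : (A.map φ).eval a = 0 := (mem_roots'.1 ha).2
    have h3 := congrArg (fun q : K[X] => (q.map φ).eval a) hG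
    simp only [Polynomial.map_sub, Polynomial.map_pow, Polynomial.map_mul, eval_sub, eval_pow,
      eval_mul, h1, zero_mul] at h3
    exact sub_eq_zero.1 h3
  -- the opposite pair
  have hneg : ∀ A B : K[X], Mum f A B → ∃ c : ℤ, S A (-B) = c - S A B := by
    intro A B hM
    refine ⟨((A.map φ).roots.filter (fun a => ‖a - SZT.B.ctr θ‖ < 1)).card, ?_⟩
    have h3 : S A (-B) + S A B =
        (((A.map φ).roots.filter (fun a => ‖a - SZT.B.ctr θ‖ < 1)).card : ℝ) := by
      simp only [hS, SZT.B.ss, SZT.B.nz, Multiset.map_map, Function.comp_def]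
      rw [← Multiset.sum_map_add]
      have h4 : ∀ a ∈ (A.map φ).roots.filter (fun a => ‖a - SZT.B.ctr θ‖ < 1),
          SZT.B.pos ‖SZT.B.eta θ‖ (SZT.B.crd θ s a (((-B).map φ).eval a)) +
            SZT.B.pos ‖SZT.B.eta θ‖ (SZT.B.crd θ s a ((B.map φ).eval a)) = 1 := by
        intro a ha
        obtain ⟨ha1, ha2⟩ := Multiset.mem_filter.1 ha
        obtain ⟨h6, _, _, h7⟩ := hc2 a ((B.map φ).eval a) (hroot A B hM a ha1) ha2
        rw [Polynomial.map_neg, eval_neg, h7]
        obtain ⟨_, _, _, _, _, _, _, h8, _, _⟩ := hc1 _ h6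
        rw [h8]
        ring
      rw [Multiset.map_congr rfl h4]
      simp
    push_cast
    linarith
  -- the unit pair
  have hone : S 1 0 = 0 := by
    simp [hS, SZT.B.ss, SZT.B.nz]
  -- additivity
  have hadd : ∀ A B : Fin 3 → K[X], (∀ i, Mum f (A i) (B i)) →
      (∃ ψ, MI f (A 0) (B 0) * MI f (A 1) (B 1) * MI f (A 2) (B 2) = Ideal.span {ψ}) →
      ∃ k : ℤ, S (A 0) (B 0) + S (A 1) (B 1) + S (A 2) (B 2) = k := by
    rintro A B hM ⟨ψ, hψ⟩
    obtain ⟨κ, hκ, hn⟩ := nrm K f A B ψ h2 hodd hf hM hψ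
    obtain ⟨k, hk⟩ := add K L φ f θ s A B ψ κ hnode hsq hM (fun i => hsplit _) hψ hκ hn
    refine ⟨k, ?_⟩
    rw [Fin.sum_univ_three] at hk
    exact hk
  -- (i)
  have hi : ∀ A B : K[X], Mum f A B → (∃ ψ, MI f A B = Ideal.span {ψ}) →
      ∃ j : ℤ, S A B = j := by
    rintro A B hM ⟨ψ, hψ⟩
    obtain ⟨k, hk⟩ := hadd ![A, 1, 1] ![B, 0, 0] (by
      intro i
      fin_cases i
      · exact hM
      · exact mum_one f
      · exact mum_one f) ⟨ψ, by
        change MI f A B * MI f 1 0 * MI f 1 0 = _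
        rw [MI_one, Ideal.mul_top, Ideal.mul_top, hψ]⟩
    refine ⟨k, ?_⟩
    have hk' : S A B + S 1 0 + S 1 0 = k := hk
    rw [hone, add_zero, add_zero] at hk'
    exact hk'
  -- (ii)
  have hii : ∀ A B A' B' A₁ B₁ : K[X], ∀ I J : Ideal (Q K f), Mum f A B → Mum f A' B' →
      Mum f A₁ B₁ → SameCl (MI f A B) (I * J) → SameCl (MI f A' B') I →
      SameCl (MI f A₁ B₁) J → ∃ j : ℤ, S A B = S A' B' + S A₁ B₁ + j := by
    intro A B A' B' A₁ B₁ I J hM hM' hM₁ h1 h3 h4
    have h6 : SameCl (MI f A' B' * MI f A₁ B₁ * MI f A (-B))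
        (Ideal.span {(⟨A, 0⟩ : Q K f)}) := by
      rw [← inv K f A B h2 hf hM]
      exact SameCl.mul' (SameCl.trans' (SameCl.mul' h3 h4) (SameCl.symm' h1)) (SameCl.refl' _)
    obtain ⟨k, hk⟩ := hadd ![A', A₁, A] ![B', B₁, -B] (by
      intro i
      fin_cases i
      · exact hM'
      · exact hM₁
      · exact mum_neg hM) (principal_of_sameCl h6)
    obtain ⟨c, hc⟩ := hneg A B hM
    have hk' : S A' B' + S A₁ B₁ + S A (-B) = k := hk
    refine ⟨c - k, ?_⟩
    push_cast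
    linarith
  -- the reduced pair
  obtain ⟨A₁, B₁, hM₁, hd₁, hcl₁⟩ := rep K f h2 hmo h5 hf I hI
  have hpow : ∀ k : ℕ, ∀ A B : K[X], Mum f A B → SameCl (MI f A B) (I ^ k) →
      ∃ j : ℤ, S A B = k * S A₁ B₁ + j := by
    intro k
    induction k with
    | zero =>
      intro A B hM hcl
      rw [pow_zero, Ideal.one_eq_top, ← Ideal.span_singleton_one] at hcl
      obtain ⟨j, hj⟩ := hi A B hM (principal_of_sameCl hcl)
      exact ⟨j, by rw [hj]; simp⟩
    | succ k ih =>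
      intro A B hM hcl
      obtain ⟨A', B', hM', _, hcl'⟩ := rep K f h2 hmo h5 hf (I ^ k) (pow_ne_zero k hI)
      obtain ⟨j, hj⟩ := ih A' B' hM' hcl'
      rw [pow_succ] at hcl
      obtain ⟨j', hj'⟩ := hii A B A' B' A₁ B₁ (I ^ k) I hM hM' hM₁ hcl hcl' hcl₁
      refine ⟨j + j', ?_⟩
      rw [hj', hj]
      push_cast
      ring
  refine ⟨S A₁ B₁, A₁, B₁, hM₁, hd₁, rfl, hpow, fun N hN => ?_⟩
  obtain ⟨u, hu⟩ := hN
  have hu' : I ^ N = Ideal.span {u} := hu
  obtain ⟨A', B', hM', _, hcl'⟩ := rep K f h2 hmo h5 hf (I ^ N) (pow_ne_zero N hI)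
  obtain ⟨j, hj⟩ := hpow N A' B' hM' hcl'
  rw [hu'] at hcl'
  obtain ⟨j', hj'⟩ := hi A' B' hM' (principal_of_sameCl hcl')
  refine ⟨j' - j, ?_⟩
  push_cast
  rw [← hj', hj]
  ring

end Pool.Agent.SZT.H32
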