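import Pool.Agent.SZT.StmtsB

/-!
# Squad SZT, row INV
-/

set_option autoImplicit false

open Polynomial H58Q

namespace Pool.Agent.SZT.H32

theorem coprime_three {K : Type} [Field K] {f A B G : K[X]} (hf : Squarefree f)
    (hG : B ^ 2 - f = A * G) : ∃ r s t : K[X], r * A + s * B + t * G = 1 := by
  obtain ⟨d, hd⟩ := (IsPrincipalIdealRing.principal (Ideal.span {A, B, G} : Ideal K[X]))
  have hd' : (Ideal.span {A, B, G} : Ideal K[X]) = Ideal.span {d} := hd
  have h1 : d ∣ A := by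
    rw [← Ideal.mem_span_singleton, ← hd']
    exact Ideal.subset_span (by simp)
  have h2 : d ∣ B := by
    rw [← Ideal.mem_span_singleton, ← hd']
    exact Ideal.subset_span (by simp)
  have h3 : d ∣ G := by
    rw [← Ideal.mem_span_singleton, ← hd']
    exact Ideal.subset_span (by simp)
  have h4 : d * d ∣ f := by
    have h5 : f = B * B - A * G := by rw [← hG]; ring
    rw [h5]
    exact dvd_sub (mul_dvd_mul h2 h2) (mul_dvd_mul h1 h3)
  have h6 : IsUnit d := hf d h4
  have h7 : (1 : K[X]) ∈ (Ideal.span {A, B, G} : Ideal K[X]) := by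
    rw [hd', Ideal.span_singleton_eq_top.2 h6]
    trivial
  rw [Ideal.mem_span_insert] at h7
  obtain ⟨r, z, hz, hrz⟩ := h7
  rw [Ideal.mem_span_pair] at hz
  obtain ⟨s, t, hst⟩ := hz
  refine ⟨r, s, t, ?_⟩
  rw [hrz, ← hst]
  ring

theorem inv : B.InvStmt := by
  intro K _ f A B h2 hf hM
  obtain ⟨G, hG⟩ := hM.dvd
  obtain ⟨r, s, t, hrst⟩ := coprime_three hf hG
  set a : Q K f := ⟨A, 0⟩ with ha
  have hprod : MI f A B * MI f A (-B) =
      Ideal.span {a * a, a * (⟨B, 1⟩ : Q K f), (⟨-B, 1⟩ : Q K f) * a,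
        (⟨-B, 1⟩ : Q K f) * (⟨B, 1⟩ : Q K f)} := by
    rw [MI, MI, neg_neg, Ideal.span_pair_mul_span_pair]
  have hbd : (⟨-B, 1⟩ : Q K f) * (⟨B, 1⟩ : Q K f) = a * (⟨-G, 0⟩ : Q K f) := by
    ext1
    · simp only [ha, QuadraticAlgebra.re_mul]
      have : f = B ^ 2 - A * G := by rw [← hG]; ring
      simp only [mul_zero, mul_one, add_zero]
      rw [this]
      ring
    · simp [ha]
  apply le_antisymm
  · rw [hprod, Ideal.span_le]
    rintro x (hx | hx | hx | hx)
    · rw [hx]
      exact Ideal.mem_span_singleton.2 (dvd_mul_right _ _)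
    · rw [hx]
      exact Ideal.mem_span_singleton.2 (dvd_mul_right _ _)
    · rw [hx]
      exact Ideal.mem_span_singleton.2 (dvd_mul_left _ _)
    · rw [Set.mem_singleton_iff.1 hx, hbd]
      exact Ideal.mem_span_singleton.2 (dvd_mul_right _ _)
  · rw [Ideal.span_singleton_le_iff_mem, hprod]
    set P := Ideal.span {a * a, a * (⟨B, 1⟩ : Q K f), (⟨-B, 1⟩ : Q K f) * a,
        (⟨-B, 1⟩ : Q K f) * (⟨B, 1⟩ : Q K f)} with hP
    have m1 : a * a ∈ P := Ideal.subset_span (by simp)
    have m2 : a * (⟨B, 1⟩ : Q K f) ∈ P := Ideal.subset_span (by simp)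
    have m3 : (⟨-B, 1⟩ : Q K f) * a ∈ P := Ideal.subset_span (by simp)
    have m4 : a * (⟨-G, 0⟩ : Q K f) ∈ P := by
      rw [← hbd]
      exact Ideal.subset_span (by simp)
    have key : a = (⟨r, 0⟩ : Q K f) * (a * a) +
        (⟨s * C (2⁻¹ : K), 0⟩ : Q K f) * (a * (⟨B, 1⟩ : Q K f) - (⟨-B, 1⟩ : Q K f) * a) +
        (⟨-t, 0⟩ : Q K f) * (a * (⟨-G, 0⟩ : Q K f)) := by
      have hC : (C (2⁻¹ : K) : K[X]) * 2 = 1 := by
        rw [show (2 : K[X]) = C (2 : K) from (map_ofNat C 2).symm, ← C_mul,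
          inv_mul_cancel₀ h2, C_1]
      ext1
      · simp only [ha, QuadraticAlgebra.re_mul, QuadraticAlgebra.re_add,
          QuadraticAlgebra.re_sub, QuadraticAlgebra.im_mul, QuadraticAlgebra.im_sub]
        have h5 : A = A * (r * A + s * B + t * G) := by rw [hrst, mul_one]
        have h6 : s * C (2⁻¹ : K) * (A * B - (-B) * A) = s * A * B := by
          calc s * C (2⁻¹ : K) * (A * B - (-B) * A) = s * (C (2⁻¹ : K) * 2) * A * B := by ring
            _ = s * A * B := by rw [hC]; ring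
        simp only [mul_zero, zero_mul, mul_one, one_mul, add_zero, zero_add, sub_self]
        rw [h6]
        conv_lhs => rw [h5]
        ring
      · simp only [ha, QuadraticAlgebra.im_mul, QuadraticAlgebra.im_add,
          QuadraticAlgebra.im_sub, QuadraticAlgebra.re_mul, QuadraticAlgebra.re_sub]
        ring
    rw [key]
    exact add_mem (add_mem (Ideal.mul_mem_left _ _ m1)
      (Ideal.mul_mem_left _ _ (sub_mem m2 m3))) (Ideal.mul_mem_left _ _ m4)

end Pool.Agent.SZT.H32
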